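import Mathlib
import Pool.Agent.Helper24.RH.RH14

/-!
# MP_d5570f_nt: the order of magnitude inside almost every host

Proof of the upper bound.  Let `L = log r`, `y` of order `u L ^ (1 + 1/u)`, `P` a set of `4 h b`
primes up to `y`, `h` of order `u L / log L`, `b` of order `L ^ (1/u)`.  If a set `D` meets at most
half of the classes modulo `p ^ 2` for half of the `p` in `P`, then by a moment computation over
the products of `h` sums over blocks of `b` primes at most `N r ^ (-2)` integers `n <= N` lie in
the classes met by `D` for all but one sixteenth of the primes of `P`.  Any set `A` has a subset `S` of at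
most `32 y ^ 2` elements whose classes contain, for most of the primes, most of the elements of
`A`.  If all the sums of `A` and `B` are squarefree one of the two subsets meets at most half of
the classes for half of the primes.  A union bound over `S` and over sets of more than
`64 y ^ 2` elements in its container gives (ii).

Proof of the lower bound.  Let `y` be of order `u L` and let `V` be the set of the `n <= N` with
`0 < n mod p ^ 2 < p ^ 2 / 2` for all primes `p <= y`; no sum of two elements of `V` is divisible
by such a `p ^ 2`.  For a set `D` of at most `c (u L) ^ 2` elements of `V` with squarefree sums at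
least `N r ^ (-1/4)` elements of `V` can be added to `D`: this is a truncated sieve with the primes
up to `8 (|D| + 1) + y` and a bound for the contribution of the larger primes.  So a maximal such
set in `V` and a random `R` has more than `c (u L) ^ 2` elements.
-/

open Finset

namespace Pool.Agent.Results.MP_d5570f_nt.AlmostAllHosts

/-- All the sums `a + b` with `a ∈ A` and `b ∈ B` are squarefree. -/
def SqfreeSums (A B : Finset ℕ) : Prop := ∀ a ∈ A, ∀ b ∈ B, Squarefree (a + b)

/-- Some `A ⊆ R` with `A + A` squarefree has at least `s` elements, and `min (|A|) (|B|) ≤ t` for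
all `A, B ⊆ R` with squarefree sums. -/
def Between (s t : ℝ) (R : Finset ℕ) : Prop :=
  (∃ A : Finset ℕ, A ⊆ R ∧ SqfreeSums A A ∧ s ≤ A.card) ∧
    ∀ A B : Finset ℕ, A ⊆ R → B ⊆ R → SqfreeSums A B → min (A.card : ℝ) B.card ≤ t

open Classical in
/-- For almost all sets `R` of `r` elements of `{1, ..., N}`, `N ≥ r ^ (C u)`, the largest `A ⊆ R`
with `A + A` squarefree has between `c u ^ 2 (log r) ^ 2` and `C u ^ 2 (log r) ^ (2 + 2 / u)`
elements, and the upper bound holds for `min (|A|) (|B|)` when all the sums of two subsets
`A`, `B` of `R` are squarefree. -/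
theorem result : ∃ c C : ℝ, 0 < c ∧ 0 < C ∧ ∃ r₀ : ℕ, ∀ r : ℕ, r₀ ≤ r → ∀ u : ℝ, 1 ≤ u →
    u ≤ Real.log (Real.log r) → ∀ N : ℕ, (r : ℝ) ^ (C * u) ≤ N →
    ((((Icc 1 N).powersetCard r).filter (fun R =>
      ¬ Between (c * u ^ 2 * Real.log r ^ 2) (C * u ^ 2 * Real.log r ^ (2 + 2 / u)) R)).card : ℝ)
      ≤ Real.exp (-(Real.log r ^ 3)) * (N.choose r : ℝ) := by
  obtain ⟨c, C, hc, hC, r₀, h⟩ := Pool.Agent.Helper24.RH.hosts_order
  refine ⟨c, C, hc, hC, r₀, fun r hr u hu hul N hN => le_trans ?_ (h r hr u hu hul N hN)⟩
  apply Nat.cast_le.2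
  apply Finset.card_le_card
  intro R hR
  have h1 := Finset.mem_filter.1 hR
  refine Finset.mem_filter.2 ⟨h1.1, fun h2 => h1.2 ⟨?_, ?_⟩⟩
  · exact h2.1
  · intro A B hA hB hAB
    exact min_le_iff.2 (h2.2 A B hA hB hAB)

end Pool.Agent.Results.MP_d5570f_nt.AlmostAllHosts
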