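import Mathlib
import Pool.Prelude.Def_F_f7f4c72a
import Pool.Agent.Helper94.SF.Final

/-!
# MP_d5570f_nt: sets with squarefree sumset, exponent `8/11`

Let `A, B` be subsets of `{1, ..., N}`.  For a prime `p` let `a_p`, `b_p` be the numbers of
residue classes modulo `p ^ 2` met by `A` and by `B`.  If `η ^ 2 * a_p * b_p <=
(p ^ 2 - a_p) * (p ^ 2 - b_p)` for every prime `p` (for example, with `η = 1`, if
`a_p + b_p <= p ^ 2`, which holds whenever all the sums `a + b` are squarefree), then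
`η ^ 4 * |A| * |B| <= C * N ^ (16/11) * (log N) ^ (50/11)`.  In particular the largest set
`A` in `{1, ..., N}` with `A + A` squarefree has at most `C * N ^ (8/11) * (log N) ^ (25/11)`
elements.

Proof.  For a prime `p` let `F_p` be the function on `Z / p ^ 2` of mean `0` and mean square
`1` that is constant on the classes of `A` and on the other classes.  The second moment over
`n <= N` of the product of the sum of the `F_p (n)`, `p` in `(z ^ 2 / 4, z ^ 2]`, and the sum
of the `F_l (n)`, `l` in `(z / 4, z]`, is `O(N * #p * #l)` for `z` up to `(N / log N) ^ (1/11)`: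
after a Fejer kernel majorisation, the products over `3` different primes contribute nothing,
as their modulus is below `N`; the products over `4` different primes `p, p', l, l'` have few
frequencies, of the form `b / (p p' l l') ^ 2` with `0 < |b| < B`, where `B` is at most the
number of the primes `l`; and for given `p` and `b` each residue class modulo `p ^ 2` occurs
for boundedly many triples `(p', l, l')`, so that Parseval modulo `p ^ 2` applies.
-/

namespace Pool.Agent.Results.MP_d5570f_nt.EightElevenths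

open Pool.Agent.Helper94.SF

/-- The number of residue classes modulo `m` that contain an element of `A`. -/
def classes (m : ℕ) (A : Finset ℕ) : ℕ := (A.image (fun a => a % m)).card

theorem sq_bound (C : ℝ) (hC : 0 < C)
    (h : ∀ N : ℕ, 2 ≤ N → ∀ A B : Finset ℕ, A ⊆ Finset.Icc 1 N → B ⊆ Finset.Icc 1 N →
      (∀ a ∈ A, ∀ b ∈ B, Squarefree (a + b)) →
      (A.card : ℝ) * B.card ≤ C * (N : ℝ) ^ (16 / 11 : ℝ) * Real.log N ^ (50 / 11 : ℝ))
    (N : ℕ) (hN : 2 ≤ N) :
    (N0cd4b8f2.f N : ℝ) ≤ √C * (N : ℝ) ^ (8 / 11 : ℝ) * Real.log N ^ (25 / 11 : ℝ) := by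
  have hmem : N0cd4b8f2.f N ∈ {k : ℕ | ∃ A : Finset ℕ, A ⊆ Finset.Icc 1 N ∧
      N0cd4b8f2.IsSquarefreeSumset A ∧ A.card = k} := by
    apply Nat.sSup_mem
    · refine ⟨0, ∅, by simp, ?_, rfl⟩
      intro n hn
      simp at hn
    · refine ⟨N, ?_⟩
      rintro k ⟨A, hA, _, rfl⟩
      have := Finset.card_le_card hA
      rw [Nat.card_Icc] at this
      omega
  obtain ⟨A, hA, hsq, hk⟩ := hmem
  rw [← hk]
  apply root_bound _ C hC N
  exact h N hN A A hA hA (fun a ha b hb => hsq _ (Finset.add_mem_add ha hb))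

/-- **Squarefree sumsets.** -/
theorem result :
    ∃ C : ℝ, 0 < C ∧
      (∀ N : ℕ, 2 ≤ N →
        (N0cd4b8f2.f N : ℝ) ≤ C * (N : ℝ) ^ (8 / 11 : ℝ) * Real.log N ^ (25 / 11 : ℝ)) ∧
      (∀ N : ℕ, 2 ≤ N → ∀ A B : Finset ℕ, A ⊆ Finset.Icc 1 N → B ⊆ Finset.Icc 1 N →
        (∀ a ∈ A, ∀ b ∈ B, Squarefree (a + b)) →
        (A.card : ℝ) * B.card ≤ C * (N : ℝ) ^ (16 / 11 : ℝ) * Real.log N ^ (50 / 11 : ℝ)) ∧
      (∀ N : ℕ, 2 ≤ N → ∀ A B : Finset ℕ, A ⊆ Finset.Icc 1 N → B ⊆ Finset.Icc 1 N →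
        ∀ η : ℝ, 0 < η → η ≤ 1 →
        (∀ p : ℕ, p.Prime → η ^ 2 * ((classes (p ^ 2) A : ℝ) * classes (p ^ 2) B)
          ≤ ((p : ℝ) ^ 2 - classes (p ^ 2) A) * ((p : ℝ) ^ 2 - classes (p ^ 2) B)) →
        η ^ 4 * ((A.card : ℝ) * B.card)
          ≤ C * (N : ℝ) ^ (16 / 11 : ℝ) * Real.log N ^ (50 / 11 : ℝ)) := by
  obtain ⟨C, hC, h⟩ := pair_bound
  have h2 : ∀ N : ℕ, 2 ≤ N → ∀ A B : Finset ℕ, A ⊆ Finset.Icc 1 N → B ⊆ Finset.Icc 1 N →
      (∀ a ∈ A, ∀ b ∈ B, Squarefree (a + b)) →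
      (A.card : ℝ) * B.card ≤ C * (N : ℝ) ^ (16 / 11 : ℝ) * Real.log N ^ (50 / 11 : ℝ) := by
    intro N hN A B hA hB hsq
    have h3 := h N hN A B hA hB 1 one_pos le_rfl
      (fun p hp => eta_one p A B (classes_of_squarefree A B hsq p hp))
    rwa [one_pow, one_mul] at h3
  have hX : ∀ N : ℕ, 0 ≤ (N : ℝ) ^ (16 / 11 : ℝ) * Real.log N ^ (50 / 11 : ℝ) := fun N => by
    have := Real.log_natCast_nonneg N
    positivity
  have hY : ∀ N : ℕ, 0 ≤ (N : ℝ) ^ (8 / 11 : ℝ) * Real.log N ^ (25 / 11 : ℝ) := fun N => by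
    have := Real.log_natCast_nonneg N
    positivity
  refine ⟨C + √C, by positivity, ?_, ?_, ?_⟩
  · intro N hN
    refine (sq_bound C hC h2 N hN).trans ?_
    rw [mul_assoc, mul_assoc]
    exact mul_le_mul_of_nonneg_right (by linarith) (hY N)
  · intro N hN A B hA hB hsq
    refine (h2 N hN A B hA hB hsq).trans ?_
    rw [mul_assoc, mul_assoc]
    exact mul_le_mul_of_nonneg_right (by linarith [Real.sqrt_nonneg C]) (hX N)
  · intro N hN A B hA hB η h0 h1 hcl
    refine (h N hN A B hA hB η h0 h1 hcl).trans ?_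
    rw [mul_assoc, mul_assoc]
    exact mul_le_mul_of_nonneg_right (by linarith [Real.sqrt_nonneg C]) (hX N)

end Pool.Agent.Results.MP_d5570f_nt.EightElevenths
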