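import Mathlib
import Pool.Agent.Helper24.FP.Host2
import Pool.Agent.Helper94.SF.Final

/-!
# MP_d5570f_nt: sets missing classes modulo the squares of few primes, inside almost every host

Proof.  Let `y` be a power of `log N` and let `P`, `L` be two sets of primes up to `y`.  For a
prime `p` let `F_p` be the function on `Z / p ^ 2` of mean `0` and mean square `1` that is
constant on the classes of `A` and on the other classes.  The elementary symmetric polynomial
of degree `2 k` in the `F_p (n)`, `p` in `P`, times that of degree `k` in the `F_l (n)`, `l` in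
`L`, for a suitable `k` of the order `log N / log y`, has a second moment over `n <= N` of the size expected from
independence: after a Fejer kernel majorisation only few frequencies survive, and Parseval
modulo `p ^ 2` bounds them.  This gives `|A| |B| <= N ^ (16/11 + ε)` whenever `A` and `B` are
sparse modulo `p ^ 2` for the primes up to a power of `log N`.  The set of all `n <= N` that
fall in the classes met by `A` modulo these `p ^ 2` is determined by few elements of `A`, so
the number of sets `A` of `m` elements for which this set is small is at most its size to the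
power `m` over `m!` up to a constant to the power `m`, for `m` above a power of `log N`; a union
bound over these sets gives the statement on hosts.
-/

open Finset

namespace Pool.Agent.Results.MP_d5570f_nt.FewPrimesHosts

/-- The number of residue classes modulo `m` that contain an element of `A`. -/
def classes (m : ℕ) (A : Finset ℕ) : ℕ := (A.image (fun a => a % m)).card

/-- For every prime `p ≤ z` the numbers `a`, `b` of classes modulo `p ^ 2` met by `A`, by `B`
satisfy `η ^ 2 a b ≤ (p ^ 2 - a) (p ^ 2 - b)`. -/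
def Sparse (η z : ℝ) (A B : Finset ℕ) : Prop :=
  ∀ p : ℕ, p.Prime → (p : ℝ) ≤ z →
    η ^ 2 * ((classes (p ^ 2) A : ℝ) * classes (p ^ 2) B)
      ≤ ((p : ℝ) ^ 2 - classes (p ^ 2) A) * ((p : ℝ) ^ 2 - classes (p ^ 2) B)

/-- If no sum `a + b` is divisible by `p ^ 2` then `A` and `B` together meet at most `p ^ 2`
classes modulo `p ^ 2`. -/
theorem classes_add (A B : Finset ℕ) (p : ℕ) (hp : p.Prime)
    (h : ∀ a ∈ A, ∀ b ∈ B, ¬ p ^ 2 ∣ a + b) : classes (p ^ 2) A + classes (p ^ 2) B ≤ p ^ 2 := by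
  classical
  have hp0 : 0 < p ^ 2 := pow_pos hp.pos 2
  set X := A.image (fun a => a % p ^ 2)
  set Y := (B.image (fun b => b % p ^ 2)).image (fun c => (p ^ 2 - c) % p ^ 2)
  have h1 : Y.card = classes (p ^ 2) B := by
    apply Finset.card_image_of_injOn
    intro c hc d hd hcd
    have hc' : c < p ^ 2 := by
      obtain ⟨b, -, rfl⟩ := Finset.mem_image.1 (Finset.mem_coe.1 hc)
      exact Nat.mod_lt _ hp0
    have hd' : d < p ^ 2 := by
      obtain ⟨b, -, rfl⟩ := Finset.mem_image.1 (Finset.mem_coe.1 hd)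
      exact Nat.mod_lt _ hp0
    simp only at hcd
    rcases Nat.eq_zero_or_pos c with h0 | h0
    · rcases Nat.eq_zero_or_pos d with h0' | h0'
      · rw [h0, h0']
      · rw [h0, Nat.sub_zero, Nat.mod_self, Nat.mod_eq_of_lt (by omega)] at hcd
        omega
    · rcases Nat.eq_zero_or_pos d with h0' | h0'
      · rw [h0', Nat.sub_zero, Nat.mod_self, Nat.mod_eq_of_lt (by omega)] at hcd
        omega
      · rw [Nat.mod_eq_of_lt (by omega), Nat.mod_eq_of_lt (by omega)] at hcd
        omega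
  have h2 : Disjoint X Y := by
    rw [Finset.disjoint_left]
    intro x hx hy
    obtain ⟨a, ha, rfl⟩ := Finset.mem_image.1 hx
    obtain ⟨c, hc, hac⟩ := Finset.mem_image.1 hy
    obtain ⟨b, hb, rfl⟩ := Finset.mem_image.1 hc
    apply h a ha b hb
    have hb' : b % p ^ 2 < p ^ 2 := Nat.mod_lt _ hp0
    have h3 : (a + b) % p ^ 2 = 0 := by
      have h4 : ((p ^ 2 - b % p ^ 2) % p ^ 2 + b % p ^ 2) % p ^ 2 = 0 := by
        rw [← Nat.mod_mod b (p ^ 2), ← Nat.add_mod, Nat.mod_mod, Nat.sub_add_cancel hb'.le,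
          Nat.mod_self]
      rw [hac, ← Nat.add_mod] at h4
      exact h4
    exact Nat.dvd_of_mod_eq_zero h3
  have h3 : X ∪ Y ⊆ Finset.range (p ^ 2) := by
    intro x hx
    rw [Finset.mem_range]
    rcases Finset.mem_union.1 hx with hx | hx
    · obtain ⟨a, -, rfl⟩ := Finset.mem_image.1 hx
      exact Nat.mod_lt _ hp0
    · obtain ⟨a, -, rfl⟩ := Finset.mem_image.1 hx
      exact Nat.mod_lt _ hp0
  have h4 := Finset.card_le_card h3
  rw [Finset.card_union_of_disjoint h2, h1, Finset.card_range] at h4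
  exact h4

/-- If no sum `a + b` is divisible by the square of a prime up to `z`, then `A`, `B` are sparse. -/
theorem sparse_of_avoid (η z : ℝ) (hη : 0 < η) (hη1 : η ≤ 1) (A B : Finset ℕ)
    (h : ∀ a ∈ A, ∀ b ∈ B, ∀ p : ℕ, p.Prime → (p : ℝ) ≤ z → ¬ p ^ 2 ∣ a + b) :
    Sparse η z A B := by
  intro p hp hpz
  have h1 := classes_add A B p hp (fun a ha b hb => h a ha b hb p hp hpz)
  have h2 : (classes (p ^ 2) A : ℝ) + classes (p ^ 2) B ≤ (p : ℝ) ^ 2 := by exact_mod_cast h1
  have h3 : (0 : ℝ) ≤ classes (p ^ 2) A := Nat.cast_nonneg _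
  have h4 : (0 : ℝ) ≤ classes (p ^ 2) B := Nat.cast_nonneg _
  have h5 : η ^ 2 ≤ 1 := by nlinarith
  have h6 : (0 : ℝ) ≤ (classes (p ^ 2) A : ℝ) * classes (p ^ 2) B := mul_nonneg h3 h4
  have h7 : η ^ 2 * ((classes (p ^ 2) A : ℝ) * classes (p ^ 2) B)
      ≤ (classes (p ^ 2) A : ℝ) * classes (p ^ 2) B := by nlinarith
  have h8 : (0 : ℝ) ≤ (p : ℝ) ^ 2 * ((p : ℝ) ^ 2 - classes (p ^ 2) A - classes (p ^ 2) B) :=
    mul_nonneg (by positivity) (by linarith)
  nlinarith

open Classical in
/-- For almost all sets `R` of `r` elements of `{1, ..., N}` all pairs of subsets `A`, `B` of `R`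
which are sparse modulo `p ^ 2` for the primes `p ≤ (log N) ^ C`, in particular all pairs such
that no `a + b` is divisible by `p ^ 2` for a prime `p ≤ (log N) ^ C`, satisfy
`min (|A|) (|B|) ≤ (log N) ^ C + r N ^ (- 3 / 11 + ε)`. -/
theorem result (ε η : ℝ) (hε : 0 < ε) (hη : 0 < η) (hη1 : η ≤ 1) :
    ∃ C : ℝ, 0 < C ∧ ∃ N₀ : ℕ, ∀ N : ℕ, N₀ ≤ N → ∀ r : ℕ, r ≤ N →
      ((((Icc 1 N).powersetCard r).filter (fun R => ∃ A B : Finset ℕ, A ⊆ R ∧ B ⊆ R ∧
        (Sparse η (Real.log N ^ C) A B ∨
          ∀ a ∈ A, ∀ b ∈ B, ∀ p : ℕ, p.Prime → (p : ℝ) ≤ Real.log N ^ C → ¬ p ^ 2 ∣ a + b) ∧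
        Real.log N ^ C + r * (N : ℝ) ^ (-(3 / 11) + ε) < A.card ∧
        Real.log N ^ C + r * (N : ℝ) ^ (-(3 / 11) + ε) < B.card)).card : ℝ)
        ≤ Real.exp (-(Real.log N ^ C)) * (N.choose r : ℝ) := by
  obtain ⟨C, hC, N₀, h⟩ := Pool.Agent.Helper24.FP.hosts2 ε η hε hη
  refine ⟨C, hC, N₀, fun N hN r hr => le_trans ?_ (h N hN r hr)⟩
  rw [Nat.cast_le]
  apply Finset.card_le_card
  intro R hR
  rw [Finset.mem_filter] at hR ⊢
  obtain ⟨hR1, A, B, hA, hB, hAB, h1, h2⟩ := hR
  refine ⟨hR1, A, B, hA, hB, ?_, h1, h2⟩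
  have h3 : Sparse η (Real.log N ^ C) A B := by
    rcases hAB with h3 | h3
    · exact h3
    · exact sparse_of_avoid η _ hη hη1 A B h3
  exact fun p hp hpz => h3 p hp hpz

end Pool.Agent.Results.MP_d5570f_nt.FewPrimesHosts
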