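import Mathlib
import Pool.Prelude.Def_F_f7f4c72a
import Pool.Agent.Helper31.SQ.Final

/-!
# MP_d5570f_nt: large sets with squarefree sumset

Let `f N` be the largest size of a set `A` in `{1, ..., N}` such that all elements of `A + A` are
squarefree.  We show `f N >= c (log N)^2 (log log N)^2 / log log log N` for large `N`
(Konyagin 2004: `(log N)^2 log log N`).

Construction.  Write `L = log N`, `L2 = log L`, `L3 = log L2`.
`A = {1 + Q0 v_t + Q0 q j : t < T, 1 <= j <= s}` with `s` of order `L^2`, `T` of order `L2^2 / L3`,
`Q0` four times the product of the odd primes up to `L / 20`, and `q` a prime in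
`(N^(1/8), N^(1/2)]`.
* Equidistribution: let `M` be the product of the `p^2`, `L / 20 < p <= N^(1/8)`, and
  `x(v) = q^(-1) (Q0^(-1) + v)` modulo `M`.  If `q` does not divide the centred representative of
  `k` modulo `M`, then the distance of `k q^(-1) / M` to the integers is at least `1 / (2 q)`.
  Averaging over `q` shows that for some `q` the means of all functions on `Z / M` with Fourier
  coefficients below a given majorant are computed by the `x(v)`, `v < N^(4/5)`, up to a power of
  `N` times the sum of the majorant.
* Primes `L / 20 < p <= L L2 / 600`: Fejer kernels keep `x(v)` in an interval of length less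
  than `p^2 / 2` modulo `p^2`.
* Primes `L L2 / 600 < p <= N^(1/8)`: the new `v_t` has to avoid at most `T + 2` arcs of length
  `2 s`; Bonferroni inequalities of order about `L / L3` up to `L L2^3`, of order about `L / L2` up
  to `L^3`, and of order one beyond `L^3`.
* Larger primes: counting.
-/

namespace Pool.Agent.Results.MP_d5570f_nt.LowerBound

open Filter

theorem result : ∃ c : ℝ, 0 < c ∧ ∀ᶠ N : ℕ in atTop,
    c * ((Real.log N) ^ 2 * (Real.log (Real.log N)) ^ 2 / Real.log (Real.log (Real.log N))) ≤
      (N0cd4b8f2.f N : ℝ) :=
  Pool.Agent.Helper31.SQ.lower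

end Pool.Agent.Results.MP_d5570f_nt.LowerBound
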